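import Mathlib.Combinatorics.SimpleGraph.AdjMatrix
import Mathlib.Combinatorics.SimpleGraph.Connectivity.Connected
import Mathlib.Combinatorics.SimpleGraph.Connectivity.EdgeConnectivity
import Mathlib.LinearAlgebra.Matrix.PosDef
import Mathlib.Analysis.Matrix.Order
import Mathlib.MeasureTheory.Measure.Lebesgue.Basic
import Mathlib.Analysis.SpecialFunctions.Pow.Real
import Mathlib.Tactic

namespace Pool.Agent.Results.MP_c65526_co.PolynomialRatio

open Finset Matrix

variable {V : Type} [Fintype V] [DecidableEq V]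

/-- `lam` is the largest eigenvalue `λ₁(H)` of the adjacency matrix of `H`. -/
def IsLargestEigenvalue (H : SimpleGraph V) [DecidableRel H.Adj] (lam : ℝ) : Prop :=
  IsGreatest {μ : ℝ | ∃ x : V → ℝ, x ≠ 0 ∧ (H.adjMatrix ℝ) *ᵥ x = μ • x} lam

/-- `q` is a principal eigenvector of `H`: an eigenvector of the adjacency matrix for the
largest eigenvalue all of whose coordinates are positive. -/
def IsPrincipal (H : SimpleGraph V) [DecidableRel H.Adj] (q : V → ℝ) : Prop :=
  (∀ v, 0 < q v) ∧ ∃ lam : ℝ, IsLargestEigenvalue H lam ∧ (H.adjMatrix ℝ) *ᵥ q = lam • q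

/-- The ratio `max q / min q`. -/
noncomputable def ratio [Nonempty V] (q : V → ℝ) : ℝ :=
  univ.sup' univ_nonempty q / univ.inf' univ_nonempty q

/-! ### Existence of the principal eigenvector -/

omit [DecidableEq V] in
lemma exists_principal [Nonempty V] (H : SimpleGraph V) [DecidableRel H.Adj] (hc : H.Connected) :
    ∃ q, IsPrincipal H q := by
  classical
  set A := H.adjMatrix ℝ with hA
  have hAs : A.IsSymm := H.isSymm_adjMatrix
  set K : Set (V → ℝ) := {y | y ⬝ᵥ y = 1} with hK
  have hKc : IsCompact K := by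
    apply IsCompact.of_isClosed_subset (isCompact_univ_pi (fun _ : V => isCompact_Icc (a := (-1:ℝ)) (b := 1)))
    · apply isClosed_eq _ continuous_const
      unfold dotProduct
      fun_prop
    · intro y hy
      simp only [hK, Set.mem_ofPred_eq, dotProduct] at hy
      simp only [Set.mem_pi, Set.mem_univ, forall_const, Set.mem_Icc]
      intro i
      have h1 : y i * y i ≤ 1 := by
        rw [← hy]
        exact single_le_sum (f := fun i => y i * y i) (fun j _ => mul_self_nonneg _) (mem_univ i)
      constructor <;> nlinarith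
  have hKn : K.Nonempty := by
    obtain ⟨v⟩ := ‹Nonempty V›
    exact ⟨Pi.single v 1, by simp [hK]⟩
  obtain ⟨x, hxK, hxmax⟩ := hKc.exists_isMaxOn hKn
    (f := fun y => y ⬝ᵥ (A *ᵥ y)) (by
      apply Continuous.continuousOn
      unfold dotProduct mulVec dotProduct
      fun_prop)
  set lam := x ⬝ᵥ (A *ᵥ x) with hlam
  have hx1 : x ⬝ᵥ x = 1 := hxK
  -- Rayleigh bound
  have hray : ∀ y : V → ℝ, y ⬝ᵥ (A *ᵥ y) ≤ lam * (y ⬝ᵥ y) := by
    intro y
    by_cases hy : y = 0
    · simp [hy]
    have hpos : 0 < y ⬝ᵥ y := by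
      have h0 : 0 ≤ y ⬝ᵥ y := by
        unfold dotProduct; exact sum_nonneg (fun i _ => mul_self_nonneg _)
      rcases h0.lt_or_eq with h | h
      · exact h
      · exact absurd (dotProduct_self_eq_zero.mp h.symm) hy
    set s := Real.sqrt (y ⬝ᵥ y) with hs
    have hs0 : 0 < s := Real.sqrt_pos.mpr hpos
    have hss : s * s = y ⬝ᵥ y := Real.mul_self_sqrt hpos.le
    have hz : (s⁻¹ • y) ∈ K := by
      simp only [hK, Set.mem_ofPred_eq, smul_dotProduct, dotProduct_smul, smul_eq_mul]
      rw [← hss]; field_simp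
    have h2 := hxmax hz
    simp only [Set.mem_ofPred_eq, mulVec_smul, smul_dotProduct, dotProduct_smul, smul_eq_mul] at h2
    have h3 : s⁻¹ * (s⁻¹ * (y ⬝ᵥ (A *ᵥ y))) ≤ lam := h2
    have h4 : y ⬝ᵥ (A *ᵥ y) = (s * s) * (s⁻¹ * (s⁻¹ * (y ⬝ᵥ (A *ᵥ y)))) := by
      field_simp
    rw [h4, ← hss]
    nlinarith [mul_pos hs0 hs0]
  -- the absolute value
  set w : V → ℝ := fun v => |x v| with hw
  have hww : w ⬝ᵥ w = 1 := by
    rw [← hx1]; unfold dotProduct
    exact sum_congr rfl (fun i _ => by simp [hw])
  have hwA : lam ≤ w ⬝ᵥ (A *ᵥ w) := by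
    rw [hlam]
    unfold dotProduct mulVec dotProduct
    apply sum_le_sum
    intro i _
    rw [mul_sum, mul_sum]
    apply sum_le_sum
    intro j _
    have hAij : 0 ≤ A i j := by
      simp only [hA, SimpleGraph.adjMatrix_apply]; split_ifs <;> norm_num
    calc x i * (A i j * x j) ≤ |x i * (A i j * x j)| := le_abs_self _
      _ = w i * (A i j * w j) := by
          rw [abs_mul, abs_mul, abs_of_nonneg hAij]
  have hweq : w ⬝ᵥ (A *ᵥ w) = lam := le_antisymm (by simpa [hww] using hray w) hwA
  have hwne : w ≠ 0 := by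
    intro h; rw [h] at hww; simp at hww
  have hpsd : (lam • (1 : Matrix V V ℝ) - A).PosSemidef := by
    rw [Matrix.posSemidef_iff_dotProduct_mulVec]
    refine ⟨?_, ?_⟩
    · rw [IsHermitian, conjTranspose_eq_transpose_of_trivial, transpose_sub, transpose_smul,
        transpose_one, hAs.eq]
    · intro y
      simp only [star_trivial, sub_mulVec, smul_mulVec, one_mulVec, dotProduct_sub,
        dotProduct_smul, smul_eq_mul]
      linarith [hray y]
  have hAw : A *ᵥ w = lam • w := by
    have h0 : (star w) ⬝ᵥ ((lam • (1 : Matrix V V ℝ) - A) *ᵥ w) = 0 := by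
      simp only [star_trivial, sub_mulVec, smul_mulVec, one_mulVec, dotProduct_sub,
        dotProduct_smul, smul_eq_mul, hweq, hww]
      ring
    have h1 := (hpsd.dotProduct_mulVec_zero_iff w).mp h0
    simp only [sub_mulVec, smul_mulVec, one_mulVec] at h1
    exact (sub_eq_zero.mp h1).symm
  have hwpos : ∀ v, 0 < w v := by
    by_contra hcon
    push Not at hcon
    obtain ⟨v0, hv0⟩ := hcon
    have hnn : ∀ v, 0 ≤ w v := fun v => abs_nonneg _
    have hz0 : w v0 = 0 := le_antisymm hv0 (hnn v0)
    have hstep : ∀ a b, H.Adj a b → w a = 0 → w b = 0 := by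
      intro a b hab ha
      have h1 := congrFun hAw a
      simp only [Pi.smul_apply, smul_eq_mul, ha, mul_zero] at h1
      rw [hA, SimpleGraph.adjMatrix_mulVec_apply] at h1
      exact (sum_eq_zero_iff_of_nonneg (fun i _ => hnn i)).mp h1 b (by simpa using hab)
    apply hwne
    funext v
    obtain ⟨p⟩ := hc.preconnected v0 v
    have : ∀ (a b : V) (p : H.Walk a b), w a = 0 → w b = 0 := by
      intro a b p
      induction p with
      | nil => exact id
      | cons h _ ih => exact fun ha => ih (hstep _ _ h ha)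
    exact this _ _ p hz0
  refine ⟨w, hwpos, lam, ⟨⟨w, hwne, hAw⟩, ?_⟩, hAw⟩
  rintro μ ⟨y, hy, hAy⟩
  have hpos : 0 < y ⬝ᵥ y := by
    have h0 : 0 ≤ y ⬝ᵥ y := by
      unfold dotProduct; exact sum_nonneg (fun i _ => mul_self_nonneg _)
    rcases h0.lt_or_eq with h | h
    · exact h
    · exact absurd (dotProduct_self_eq_zero.mp h.symm) hy
  have h1 := hray y
  rw [hAy, dotProduct_smul, smul_eq_mul] at h1
  exact le_of_mul_le_mul_right h1 hpos

/-! ### The flow argument -/

omit [DecidableEq V] in
/-- The net flow into a level set is carried by its boundary edges. -/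
lemma flow (H : SimpleGraph V) [DecidableRel H.Adj] (q : V → ℝ) (f : V → ℝ)
    (h : ∀ x, ∑ y, (if H.Adj x y then (q y - q x) else 0) ≤ f x) (t : ℝ) :
    ∑ x with q x ≤ t, ∑ y with ¬ q y ≤ t, (if H.Adj x y then (q y - q x) else 0)
      ≤ ∑ x with q x ≤ t, f x := by
  have h1 : ∑ x with q x ≤ t, ∑ y, (if H.Adj x y then (q y - q x) else 0)
      ≤ ∑ x with q x ≤ t, f x := sum_le_sum (fun x _ => h x)
  have h2 : ∑ x with q x ≤ t, ∑ y, (if H.Adj x y then (q y - q x) else 0)
      = ∑ x with q x ≤ t, ∑ y with q y ≤ t, (if H.Adj x y then (q y - q x) else 0)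
        + ∑ x with q x ≤ t, ∑ y with ¬ q y ≤ t, (if H.Adj x y then (q y - q x) else 0) := by
    rw [← sum_add_distrib]
    apply sum_congr rfl
    intro x _
    rw [sum_filter_add_sum_filter_not]
  have h3 : ∑ x with q x ≤ t, ∑ y with q y ≤ t, (if H.Adj x y then (q y - q x) else 0) = 0 := by
    have h4 : ∑ x with q x ≤ t, ∑ y with q y ≤ t, (if H.Adj x y then (q y - q x) else 0)
        = - ∑ x with q x ≤ t, ∑ y with q y ≤ t, (if H.Adj x y then (q y - q x) else 0) := by
      conv_lhs => rw [sum_comm]
      rw [← sum_neg_distrib]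
      apply sum_congr rfl
      intro x _
      rw [← sum_neg_distrib]
      apply sum_congr rfl
      intro y _
      by_cases hxy : H.Adj x y
      · simp [hxy, hxy.symm]
      · have : ¬ H.Adj y x := fun h => hxy h.symm
        simp [hxy, this]
    linarith
  linarith

omit [DecidableEq V] in
/-- Between two levels of `q` there is an edge whose drop is at most the flow. -/
lemma gap (H : SimpleGraph V) [DecidableRel H.Adj] (hc : H.Connected) (q : V → ℝ) (f : V → ℝ)
    (h : ∀ x, ∑ y, (if H.Adj x y then (q y - q x) else 0) ≤ f x) (t : ℝ)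
    (x0 y0 : V) (hx0 : q x0 ≤ t) (hy0 : t < q y0) :
    ∃ x y, q x ≤ t ∧ t < q y ∧ q y - q x ≤ ∑ x with q x ≤ t, f x := by
  obtain ⟨p⟩ := hc.preconnected x0 y0
  obtain ⟨e, -, he1, he2⟩ := p.exists_boundary_dart {x | q x ≤ t} hx0 (by simpa using hy0)
  have he1' : q e.fst ≤ t := he1
  have he2' : ¬ q e.snd ≤ t := he2
  refine ⟨e.fst, e.snd, he1', not_le.mp he2', le_trans ?_ (flow H q f h t)⟩
  have hterm : ∀ x ∈ univ.filter (fun x => q x ≤ t), ∀ y ∈ univ.filter (fun y => ¬ q y ≤ t),
      0 ≤ (if H.Adj x y then (q y - q x) else 0) := by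
    intro x hx y hy
    simp only [mem_filter, mem_univ, true_and, not_le] at hx hy
    split_ifs
    · linarith
    · exact le_rfl
  calc q e.snd - q e.fst
      = (if H.Adj e.fst e.snd then (q e.snd - q e.fst) else 0) := by simp [e.adj]
    _ ≤ ∑ y with ¬ q y ≤ t, (if H.Adj e.fst y then (q y - q e.fst) else 0) :=
        single_le_sum (f := fun y => (if H.Adj e.fst y then (q y - q e.fst) else 0))
          (fun y hy => hterm e.fst (by simpa using he1') y hy) (by simpa using he2')
    _ ≤ _ :=
        single_le_sum (f := fun x => ∑ y with ¬ q y ≤ t, (if H.Adj x y then (q y - q x) else 0))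
          (fun x hx => sum_nonneg (fun y hy => hterm x hx y hy)) (by simpa using he1')

/-- Covering an interval by the intervals `[q x, q x + c]`. -/
lemma cover (q : V → ℝ) (c L : ℝ) (hc : 0 ≤ c) (z : V) 
    (h : ∀ t, L ≤ t → t < q z → ∃ x, q x ≤ t ∧ t ≤ q x + c) :
    q z - L ≤ ((Fintype.card V : ℝ) - 1) * c := by
  have h1 : Set.Ico L (q z) ⊆ ⋃ x ∈ univ.erase z, Set.Icc (q x) (q x + c) := by
    rintro t ⟨ht1, ht2⟩
    obtain ⟨x, hx1, hx2⟩ := h t ht1 ht2
    simp only [Set.mem_iUnion, Set.mem_Icc, mem_erase, mem_univ, and_true]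
    refine ⟨x, ?_, hx1, hx2⟩
    rintro rfl
    linarith
  have h2 : MeasureTheory.volume (Set.Ico L (q z)) ≤
      ∑ x ∈ univ.erase z, MeasureTheory.volume (Set.Icc (q x) (q x + c)) :=
    (MeasureTheory.measure_mono h1).trans (MeasureTheory.measure_biUnion_finset_le _ _)
  simp only [Real.volume_Ico, Real.volume_Icc, add_sub_cancel_left, sum_const, card_erase_of_mem
    (mem_univ z), card_univ, nsmul_eq_mul] at h2
  have hcard : 1 ≤ Fintype.card V := Fintype.card_pos_iff.mpr ⟨z⟩
  have h3 : ((Fintype.card V - 1 : ℕ) : ENNReal) * ENNReal.ofReal c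
      = ENNReal.ofReal (((Fintype.card V : ℝ) - 1) * c) := by
    rw [ENNReal.ofReal_mul (by simpa using hcard),
      show ((Fintype.card V : ℝ) - 1) = ((Fintype.card V - 1 : ℕ) : ℝ) by
        rw [Nat.cast_sub hcard, Nat.cast_one], ENNReal.ofReal_natCast]
  rw [h3] at h2
  exact (ENNReal.ofReal_le_ofReal_iff (mul_nonneg (by simpa using hcard) hc)).mp h2

/-- The bound with the smaller of the two special values named first. -/
lemma bound_aux (H : SimpleGraph V) [DecidableRel H.Adj] (hc : H.Connected) (q : V → ℝ)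
    (hq : ∀ x, 0 < q x) (u v : V) (huv : u ≠ v) (hle : q u ≤ q v)
    (h : ∀ x, ∑ y, (if H.Adj x y then (q y - q x) else 0) ≤ if x = u ∨ x = v then q x else 0)
    (x y : V) : q x ≤ ((Fintype.card V : ℝ) ^ 2 + Fintype.card V - 1) * q y := by
  set f : V → ℝ := fun x => if x = u ∨ x = v then q x else 0 with hf
  set n : ℝ := (Fintype.card V : ℝ) with hn
  have hn1 : 1 ≤ n := by
    have : 1 ≤ Fintype.card V := Fintype.card_pos_iff.mpr ⟨u⟩
    simpa [hn] using this
  -- the minimum is at u
  have hmin : ∀ z, q u ≤ q z := by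
    intro z
    by_contra hz
    push Not at hz
    obtain ⟨a, b, ha, hb, hab⟩ := gap H hc q f h (q z) z u le_rfl hz
    have h0 : ∑ x with q x ≤ q z, f x = 0 := by
      apply sum_eq_zero
      intro w hw
      simp only [mem_filter, mem_univ, true_and] at hw
      simp only [hf]
      rw [if_neg]
      rintro (rfl | rfl) <;> linarith
    rw [h0] at hab
    linarith
  have hfle : ∀ t, ∑ x with q x ≤ t, f x ≤ q u + q v := by
    intro t
    calc ∑ x with q x ≤ t, f x ≤ ∑ x, f x :=
          sum_le_sum_of_subset_of_nonneg (filter_subset _ _) (fun i _ _ => by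
            simp only [hf]; split_ifs
            · exact (hq i).le
            · exact le_rfl)
      _ = q u + q v := by
          rw [show (∑ x, f x) = ∑ x ∈ ({u, v} : Finset V), q x by
            simp only [hf]
            rw [← sum_filter]
            apply sum_congr _ (fun _ _ => rfl)
            ext w; simp]
          rw [sum_pair huv]
  have hflt : ∀ t, t < q v → ∑ x with q x ≤ t, f x ≤ q u := by
    intro t ht
    calc ∑ x with q x ≤ t, f x ≤ ∑ x ∈ ({u} : Finset V), q x := by
          simp only [hf]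
          rw [← sum_filter]
          apply sum_le_sum_of_subset_of_nonneg
          · intro w hw
            simp only [mem_filter, mem_univ, true_and, mem_singleton] at hw ⊢
            rcases hw with ⟨h1, rfl | rfl⟩
            · rfl
            · linarith
          · intro i _ _; exact (hq i).le
      _ = q u := by simp
  -- first stage
  have hs1 : q v - q u ≤ (n - 1) * q u := by
    apply cover q (q u) (q u) (hq u).le v
    intro t ht1 ht2
    obtain ⟨a, b, ha, hb, hab⟩ := gap H hc q f h t u v ht1 ht2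
    exact ⟨a, ha, by linarith [hflt t ht2]⟩
  -- second stage
  have hs2 : q x - q v ≤ (n - 1) * (q u + q v) := by
    apply cover q (q u + q v) (q v) (by linarith [hq u, hq v]) x
    intro t ht1 ht2
    obtain ⟨a, b, ha, hb, hab⟩ := gap H hc q f h t v x ht1 ht2
    exact ⟨a, ha, by linarith [hfle t]⟩
  have h3 : q v ≤ n * q u := by linarith
  have h4 : q x ≤ n * q v + (n - 1) * q u := by linarith
  have h5 : n * q v ≤ n * (n * q u) := mul_le_mul_of_nonneg_left h3 (by linarith)
  have h6 : q x ≤ (n ^ 2 + n - 1) * q u := by nlinarith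
  have h7 : (n ^ 2 + n - 1) * q u ≤ (n ^ 2 + n - 1) * q y :=
    mul_le_mul_of_nonneg_left (hmin y) (by nlinarith)
  linarith

lemma bound (H : SimpleGraph V) [DecidableRel H.Adj] (hc : H.Connected) (q : V → ℝ)
    (hq : ∀ x, 0 < q x) (u v : V) (huv : u ≠ v)
    (h : ∀ x, ∑ y, (if H.Adj x y then (q y - q x) else 0) ≤ if x = u ∨ x = v then q x else 0)
    (x y : V) : q x ≤ ((Fintype.card V : ℝ) ^ 2 + Fintype.card V - 1) * q y := by
  rcases le_total (q u) (q v) with hle | hle
  · exact bound_aux H hc q hq u v huv hle h x y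
  · refine bound_aux H hc q hq v u huv.symm hle (fun z => ?_) x y
    have := h z
    simpa only [or_comm] using this

/-- The hypothesis of `bound` for the eigenvector of a regular graph minus an edge. -/
lemma eig (G : SimpleGraph V) [DecidableRel G.Adj] (d : ℕ) (hreg : G.IsRegularOfDegree d)
    (u v : V) (huv : G.Adj u v) (H : SimpleGraph V) [DecidableRel H.Adj]
    (hH : H = G.deleteEdges {s(u, v)}) (q : V → ℝ) (hq : ∀ x, 0 < q x) (lam : ℝ)
    (heig : (H.adjMatrix ℝ) *ᵥ q = lam • q) (x : V) :
    ∑ y, (if H.Adj x y then (q y - q x) else 0) ≤ if x = u ∨ x = v then q x else 0 := by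
  have hadj : ∀ a b, H.Adj a b ↔ G.Adj a b ∧ s(a, b) ≠ s(u, v) := by
    intro a b; subst hH; simp [SimpleGraph.deleteEdges_adj]
  have hsum : ∀ a, ∑ y, (if H.Adj a y then q y else 0) = lam * q a := by
    intro a
    have h1 := congrFun heig a
    rw [SimpleGraph.adjMatrix_mulVec_apply] at h1
    simp only [Pi.smul_apply, smul_eq_mul] at h1
    rw [← h1, ← sum_filter]
    apply sum_congr _ (fun _ _ => rfl)
    ext w; simp
  have hdeg : ∀ a, (∑ y, (if H.Adj a y then (1:ℝ) else 0))
      = d - (if a = u ∨ a = v then 1 else 0) := by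
    intro a
    have h1 : ∑ y, (if G.Adj a y then (1:ℝ) else 0) = d := by
      rw [← sum_filter, sum_const, nsmul_eq_mul, mul_one, ← hreg a, ← SimpleGraph.card_neighborFinset_eq_degree]
      congr 2
      ext w; simp
    have h2 : ∀ y, (if H.Adj a y then (1:ℝ) else 0)
        = (if G.Adj a y then (1:ℝ) else 0) - (if s(a, y) = s(u, v) then 1 else 0) := by
      intro y
      by_cases hs : s(a, y) = s(u, v)
      · have hG : G.Adj a y := by
          rw [← SimpleGraph.mem_edgeSet, hs]; exact huv
        simp [hadj, hs, hG]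
      · simp [hadj, hs]
    rw [sum_congr rfl (fun y _ => h2 y), sum_sub_distrib, h1]
    congr 1
    by_cases hau : a = u
    · subst hau
      rw [if_pos (Or.inl rfl)]
      rw [sum_eq_single v]
      · simp
      · intro b _ hb
        rw [if_neg]
        intro hs
        apply hb
        simpa [Sym2.eq_iff, huv.ne, huv.ne.symm] using hs
      · simp
    · by_cases hav : a = v
      · subst hav
        rw [if_pos (Or.inr rfl)]
        rw [sum_eq_single u]
        · rw [if_pos Sym2.eq_swap]
        · intro b _ hb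
          rw [if_neg]
          intro hs
          apply hb
          rcases Sym2.eq_iff.mp hs with ⟨h1, h2⟩ | ⟨h1, h2⟩
          · exact absurd h1 hau
          · exact h2
        · simp
      · rw [if_neg (by tauto)]
        apply sum_eq_zero
        intro y _
        rw [if_neg]
        intro hs
        rcases Sym2.eq_iff.mp hs with ⟨h1, h2⟩ | ⟨h1, h2⟩
        · exact hau h1
        · exact hav h1
  have hlam : lam ≤ d := by
    obtain ⟨m, -, hm⟩ := exists_max_image (univ : Finset V) q ⟨u, mem_univ u⟩
    have h1 : lam * q m ≤ d * q m := by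
      rw [← hsum m]
      calc ∑ y, (if H.Adj m y then q y else 0) ≤ ∑ y, (if H.Adj m y then (1:ℝ) else 0) * q m := by
            apply sum_le_sum
            intro y _
            split_ifs
            · rw [one_mul]; exact hm y (mem_univ y)
            · simp
        _ = (d - (if m = u ∨ m = v then 1 else 0)) * q m := by rw [← sum_mul, hdeg]
        _ ≤ d * q m := by
            apply mul_le_mul_of_nonneg_right _ (hq m).le
            split_ifs <;> simp
    exact le_of_mul_le_mul_right h1 (hq m)
  have h3 : ∑ y, (if H.Adj x y then (q y - q x) else 0)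
      = lam * q x - (d - (if x = u ∨ x = v then 1 else 0)) * q x := by
    rw [← hsum x, ← hdeg x, sum_mul, ← sum_sub_distrib]
    apply sum_congr rfl
    intro y _
    split_ifs <;> ring
  rw [h3]
  have h4 : lam * q x ≤ d * q x := mul_le_mul_of_nonneg_right hlam (hq x).le
  split_ifs <;> linarith

/-- **Deleting a non-bridge edge from a connected regular graph keeps the principal ratio
polynomially bounded.** -/
theorem result :
    ∃ C : ℝ, ∀ (V : Type) [Fintype V] [DecidableEq V] [Nonempty V] (G : SimpleGraph V)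
      [DecidableRel G.Adj] (d : ℕ) (u v : V) (H : SimpleGraph V) [DecidableRel H.Adj],
      3 ≤ Fintype.card V → G.Connected → G.IsRegularOfDegree d → G.Adj u v →
      ¬ G.IsBridge s(u, v) → H = G.deleteEdges {s(u, v)} →
      (∃ q : V → ℝ, IsPrincipal H q) ∧
      ∀ q : V → ℝ, IsPrincipal H q →
        ratio q ≤ (Fintype.card V : ℝ) ^ 2 + Fintype.card V - 1 ∧
        ratio q ≤ (Fintype.card V : ℝ) ^ C := by
  refine ⟨3, ?_⟩
  intro V _ _ _ G _ d u v H _ hn hG hreg huv hbr hH
  have hr : H.Reachable u v := by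
    rw [hH]
    by_contra hcon
    exact hbr (SimpleGraph.isBridge_iff.mpr hcon)
  have hconn : H.Connected := by
    have hstep : ∀ a b, G.Adj a b → H.Reachable a b := by
      intro a b hab
      by_cases hs : s(a, b) = s(u, v)
      · rcases Sym2.eq_iff.mp hs with ⟨h1, h2⟩ | ⟨h1, h2⟩
        · rw [h1, h2]; exact hr
        · rw [h1, h2]; exact hr.symm
      · apply SimpleGraph.Adj.reachable
        rw [hH, SimpleGraph.deleteEdges_adj]
        exact ⟨hab, by simpa using hs⟩
    have hwalk : ∀ (a b : V) (p : G.Walk a b), H.Reachable a b := by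
      intro a b p
      induction p with
      | nil => exact SimpleGraph.Reachable.refl _
      | cons h _ ih => exact (hstep _ _ h).trans ih
    refine { preconnected := fun a b => ?_, nonempty := inferInstance }
    obtain ⟨p⟩ := hG.preconnected a b
    exact hwalk a b p
  refine ⟨exists_principal H hconn, ?_⟩
  rintro q ⟨hq, lam, -, heig⟩
  have hb := bound H hconn q hq u v huv.ne (eig G d hreg u v huv H hH q hq lam heig)
  have h1 : ratio q ≤ (Fintype.card V : ℝ) ^ 2 + Fintype.card V - 1 := by
    unfold ratio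
    obtain ⟨a, -, ha⟩ := exists_mem_eq_sup' (univ_nonempty (α := V)) q
    obtain ⟨b, -, hb'⟩ := exists_mem_eq_inf' (univ_nonempty (α := V)) q
    rw [ha, hb', div_le_iff₀ (hq b)]
    exact hb a b
  refine ⟨h1, h1.trans ?_⟩
  have hn' : (3:ℝ) ≤ Fintype.card V := by exact_mod_cast hn
  have h3 : (Fintype.card V : ℝ) ^ (3:ℝ) = (Fintype.card V : ℝ) ^ 3 := by
    rw [← Real.rpow_natCast]; norm_num
  rw [h3]
  nlinarith [mul_nonneg (sub_nonneg.mpr hn') (sub_nonneg.mpr hn'),
    mul_nonneg (mul_nonneg (sub_nonneg.mpr hn') (sub_nonneg.mpr hn')) (sub_nonneg.mpr hn')]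

end Pool.Agent.Results.MP_c65526_co.PolynomialRatio
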